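import Pool.Agent.Lib.MP_0bf891_al.Five4

open Matrix

theorem Pool.Agent.Results.MP_0bf891_al.FivePieces.result
    (G : Subgroup (Matrix.specialOrthogonalGroup (Fin 4) ℝ))
    (h2 : ∀ H : Subgroup ↥G, ∀ [H.Normal],
      (∃ μ : Set (↥G ⧸ H) → ℝ,
          (∀ A, 0 ≤ μ A) ∧ μ Set.univ = 1 ∧
          (∀ A B, Disjoint A B → μ (A ∪ B) = μ A + μ B) ∧
          (∀ q : ↥G ⧸ H, ∀ A, μ ((fun y => q * y) '' A) = μ A)) →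
      ¬ ∃ x : Fin 4 → ℝ, x ⬝ᵥ x = 1 ∧
          ∀ h ∈ H,
            (((h : ↥G) : Matrix.specialOrthogonalGroup (Fin 4) ℝ) :
                Matrix (Fin 4) (Fin 4) ℝ) *ᵥ x = x) :
    ∃ (g : Fin 5 → Matrix.specialOrthogonalGroup (Fin 4) ℝ) (c : (Fin 4 → ℝ) → Fin 5),
      (∀ i, g i ∈ G) ∧
      Set.BijOn (fun x => (g (c x) : Matrix (Fin 4) (Fin 4) ℝ) *ᵥ x)
        {x | x ⬝ᵥ x = 1 ∧ c x < 2} {x | x ⬝ᵥ x = 1} ∧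
      Set.BijOn (fun x => (g (c x) : Matrix (Fin 4) (Fin 4) ℝ) *ᵥ x)
        {x | x ⬝ᵥ x = 1 ∧ 2 ≤ c x} {x | x ⬝ᵥ x = 1} :=
  Pool.Agent.Lib.MP_0bf891_al.five_main h2
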