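import Pool.Agent.Lib.MP_0bf891_al.Split

open Matrix

theorem Pool.Agent.Results.MP_0bf891_al.FreeUnlessBalanced.result
    (G : Subgroup (Matrix.specialOrthogonalGroup (Fin 4) ℝ))
    (h2 : ∀ H : Subgroup ↥G, ∀ [H.Normal],
      (∃ μ : Set (↥G ⧸ H) → ℝ,
          (∀ A, 0 ≤ μ A) ∧ μ Set.univ = 1 ∧
          (∀ A B, Disjoint A B → μ (A ∪ B) = μ A + μ B) ∧
          (∀ q : ↥G ⧸ H, ∀ A, μ ((fun y => q * y) '' A) = μ A)) →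
      ¬ ∃ x : Fin 4 → ℝ, x ⬝ᵥ x = 1 ∧
          ∀ h ∈ H,
            (((h : ↥G) : Matrix.specialOrthogonalGroup (Fin 4) ℝ) :
                Matrix (Fin 4) (Fin 4) ℝ) *ᵥ x = x)
    (h : ¬ Dense (G : Set (Matrix.specialOrthogonalGroup (Fin 4) ℝ)) ∨
      (∃ g ∈ G, ∃ z : ℂ, Polynomial.aeval z (g : Matrix (Fin 4) (Fin 4) ℝ).charpoly = 0 ∧
        Transcendental ℚ z) ∨
      (∃ g ∈ G, ∃ v : AbsoluteValue ℂ ℝ, ∀ z : ℂ,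
        Polynomial.aeval z (g : Matrix (Fin 4) (Fin 4) ℝ).charpoly = 0 → v z ≠ 1) ∨
      (∀ M ∈ Algebra.adjoin ℚ
        (Subtype.val '' (G : Set (Matrix.specialOrthogonalGroup (Fin 4) ℝ))), M.rank ≠ 1)) :
    ∃ F : Subgroup (Matrix.specialOrthogonalGroup (Fin 4) ℝ),
      F ≤ G ∧ Nonempty (F ≃* FreeGroup (Fin 2)) ∧
      ∀ x : Fin 4 → ℝ, x ⬝ᵥ x = 1 →
        ∀ f ∈ F, ∀ g ∈ F,
          (f : Matrix (Fin 4) (Fin 4) ℝ) *ᵥ x = x →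
          (g : Matrix (Fin 4) (Fin 4) ℝ) *ᵥ x = x →
          f * g = g * f :=
  Pool.Agent.Lib.MP_0bf891_al.main h2 h
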